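import Pool.Agent.LE.StmtsQH
import Pool.Agent.Helper54_LIR.FTB

/-!
# FRB: the free resolvent
-/

set_option autoImplicit false

open MeasureTheory ProbabilityTheory Function Filter

open scoped ENNReal BigOperators Topology NNReal ComplexOrder Matrix

noncomputable section

namespace Pool.Agent.LE.QF.H88

open Pool.Agent.Anderson hiding box mem_box card_box
open Pool.Agent.Loc Pool.Agent.Mob Pool.Agent.Helper54.Bal
  Pool.Agent.Helper96.EXP Pool.Agent.BED
open Pool.Agent.LE.MN Pool.Agent.LE.CL Pool.Agent.LE.IR Pool.Agent.LE.QD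

variable {d M : ℕ} [NeZero M]

theorem tail_le {a T : ℝ} (ha : 0 < a) (hT : 1 ≤ a ^ 2 * T) : Real.exp (-(a * T)) / a ≤ 1 := by
  have hT0 : 0 < T := by
    by_contra hcon
    push Not at hcon
    nlinarith [sq_nonneg a]
  rw [div_le_one ha]
  have h3 : Real.exp (-(a * T)) * Real.exp (a * T) = 1 := by
    rw [← Real.exp_add, neg_add_cancel, Real.exp_zero]
  have h4 : a * T ≤ Real.exp (a * T) := by
    have := Real.add_one_le_exp (a * T)
    linarith
  have h5 : 0 < Real.exp (-(a * T)) := Real.exp_pos _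
  have h6 : Real.exp (-(a * T)) * (a * T) ≤ 1 := by
    calc Real.exp (-(a * T)) * (a * T) ≤ Real.exp (-(a * T)) * Real.exp (a * T) := by
          gcongr
      _ = 1 := h3
  have h7 : 0 < a * T := by positivity
  by_contra hcon
  push Not at hcon
  have h8 : a * (a * T) < Real.exp (-(a * T)) * (a * T) := by gcongr
  nlinarith

theorem geo (K : ℕ) : ∑ k ∈ Finset.range K, (1 + (k : ℝ)) * (4 / 5 : ℝ) ^ k ≤ 25 := by
  have h : ∑ k ∈ Finset.range K, (1 + (k : ℝ)) * (4 / 5 : ℝ) ^ k =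
      25 - (25 + 5 * K) * (4 / 5 : ℝ) ^ K := by
    induction K with
    | zero => norm_num
    | succ n ih =>
      rw [Finset.sum_range_succ, ih, pow_succ]
      push_cast
      ring
  rw [h]
  have : (0 : ℝ) ≤ (25 + 5 * K) * (4 / 5 : ℝ) ^ K := by positivity
  linarith

/-- the kernel of `e^{-i t Δ}` -/
def kn (y : Tor d M) (t : ℝ) : ℂ :=
  (∑ p, ec p y * Complex.exp (-(Complex.I * ((t * es p : ℝ) : ℂ)))) / (M : ℂ) ^ d

theorem kn_cont (y : Tor d M) : Continuous (kn y) := by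
  unfold kn
  exact Continuous.div_const (continuous_finsetSum _ fun p _ => by fun_prop) _

theorem kp_cont (y : Tor d M) : Continuous fun t : ℝ =>
    (∑ p, ec p y * Complex.exp (Complex.I * ((t * es p : ℝ) : ℂ))) / (M : ℂ) ^ d :=
  Continuous.div_const (continuous_finsetSum _ fun p _ => by fun_prop) _

theorem card_tor : ((Fintype.card (Tor d M) : ℕ) : ℝ) = (M : ℝ) ^ d := by
  have h : Fintype.card (Tor d M) = M ^ d := by
    unfold Tor
    rw [Fintype.card_fun, ZMod.card, Fintype.card_fin]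
  rw [h]
  push_cast
  rfl

theorem mean_le {F : Tor d M → ℂ} {B : ℝ} (h : ∀ p, ‖F p‖ ≤ B) :
    ‖(∑ p, F p) / (M : ℂ) ^ d‖ ≤ B := by
  have hM : (0 : ℝ) < (M : ℝ) ^ d := by
    have : 0 < (M : ℝ) := by exact_mod_cast Nat.pos_of_ne_zero (NeZero.ne M)
    positivity
  rw [norm_div, norm_pow, Complex.norm_natCast, div_le_iff₀ hM]
  refine (norm_sum_le _ _).trans ((Finset.sum_le_sum fun p _ => h p).trans (le_of_eq ?_))
  rw [Finset.sum_const, Finset.card_univ, nsmul_eq_mul, card_tor, mul_comm]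

theorem kn_le (y : Tor d M) (t : ℝ) : ‖kn y t‖ ≤ 1 := by
  unfold kn
  apply mean_le
  intro p
  rw [norm_mul, Pool.Agent.LE.IR.H54.ec_norm, one_mul]
  have : -(Complex.I * ((t * es p : ℝ) : ℂ)) = ((-(t * es p) : ℝ) : ℂ) * Complex.I := by
    push_cast
    ring
  rw [this, Complex.norm_exp_ofReal_mul_I]

theorem es_sub_ne {z : ℂ} (hz : 0 < z.im) (e : ℝ) : (e : ℂ) - z ≠ 0 := by
  intro h
  have := congrArg Complex.im h
  simp at this
  linarith

theorem es_sub_norm {z : ℂ} (hz : 0 < z.im) (e : ℝ) : z.im ≤ ‖(e : ℂ) - z‖ := by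
  have := Complex.abs_im_le_norm ((e : ℂ) - z)
  simp at this
  rw [abs_of_pos hz] at this
  exact this

/-- the formula for the finite time -/
theorem one_div_eq {z : ℂ} (hz : 0 < z.im) (e T : ℝ) : 1 / ((e : ℂ) - z) =
    Complex.I * (∫ t in (0 : ℝ)..T, Complex.exp (Complex.I * z * t) *
      Complex.exp (-(Complex.I * ((t * e : ℝ) : ℂ)))) +
      Complex.exp (-(Complex.I * ((e : ℂ) - z) * T)) / ((e : ℂ) - z) := by
  have h0 := es_sub_ne hz e
  have hc : -(Complex.I * ((e : ℂ) - z)) ≠ 0 :=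
    neg_ne_zero.2 (mul_ne_zero Complex.I_ne_zero h0)
  have h1 : ∀ t : ℝ, Complex.exp (Complex.I * z * t) *
      Complex.exp (-(Complex.I * ((t * e : ℝ) : ℂ))) =
      Complex.exp (-(Complex.I * ((e : ℂ) - z)) * t) := by
    intro t
    rw [← Complex.exp_add]
    congr 1
    push_cast
    ring
  have h2 : (∫ t in (0 : ℝ)..T, Complex.exp (Complex.I * z * t) *
      Complex.exp (-(Complex.I * ((t * e : ℝ) : ℂ)))) =
      (Complex.exp (-(Complex.I * ((e : ℂ) - z)) * T) - 1) / (-(Complex.I * ((e : ℂ) - z))) := by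
    rw [intervalIntegral.integral_congr fun t _ => h1 t, integral_exp_mul_complex hc]
    simp
  rw [h2]
  have h3 : -(Complex.I * ((e : ℂ) - z) * T) = -(Complex.I * ((e : ℂ) - z)) * T := by ring
  rw [h3]
  set X := Complex.exp (-(Complex.I * ((e : ℂ) - z)) * T)
  have hI : Complex.I ≠ 0 := Complex.I_ne_zero
  field_simp
  ring

theorem pow_third (k : ℕ) : ((2 : ℝ) ^ k) ^ (-(1 / 3 : ℝ)) ≤ (4 / 5) ^ k := by
  have h5 : ((2 : ℝ) ^ k) ^ (-(1 / 3 : ℝ)) = ((2 : ℝ) ^ (-(1 / 3 : ℝ))) ^ k := by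
    rw [← Real.rpow_natCast, ← Real.rpow_mul (by norm_num), mul_comm,
      Real.rpow_mul (by norm_num), Real.rpow_natCast]
  rw [h5]
  have h6 : (2 : ℝ) ^ (-(1 / 3 : ℝ)) ≤ 4 / 5 := by
    have h7 : (2 : ℝ) ^ (-(1 / 3 : ℝ)) = (1 / 2 : ℝ) ^ (1 / 3 : ℝ) := by
      rw [Real.rpow_neg (by norm_num), ← Real.inv_rpow (by norm_num)]
      congr 1
      norm_num
    rw [h7]
    have h8 : ((4 / 5 : ℝ) ^ 3) ^ (1 / 3 : ℝ) = 4 / 5 := by
      rw [← Real.rpow_natCast, ← Real.rpow_mul (by norm_num)]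
      norm_num
    rw [← h8]
    apply Real.rpow_le_rpow (by norm_num) (by norm_num) (by norm_num)
  gcongr

/-- the integral of the kernel -/
theorem kn_int {Cb : ℝ} (hCb : 1 ≤ Cb) (y : Tor d M)
    (hb : ∀ (T : ℝ), 1 ≤ T → 2 * T ≤ M / 40 → ∫ t in T..2 * T,
        (‖(∑ p, ec p y * Complex.exp (Complex.I * ((t * es p : ℝ) : ℂ))) / (M : ℂ) ^ d‖ +
          ‖(∑ p, ec p y * Complex.exp (-(Complex.I * ((t * es p : ℝ) : ℂ)))) / (M : ℂ) ^ d‖) ≤
        Cb * T ^ (-(1 / 3 : ℝ)) * (1 + Real.log T))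
    {K : ℕ} (hK : (2 : ℝ) ^ K ≤ M / 40) :
    ∫ t in (0 : ℝ)..2 ^ K, ‖kn y t‖ ≤ 1 + 25 * Cb := by
  have hc : Continuous fun t => ‖kn y t‖ := (kn_cont y).norm
  have h4 : ∫ t in (0 : ℝ)..2 ^ K, ‖kn y t‖ = (∫ t in (0 : ℝ)..1, ‖kn y t‖) +
      ∑ k ∈ Finset.range K, ∫ t in (2 : ℝ) ^ k..(2 : ℝ) ^ (k + 1), ‖kn y t‖ := by
    rw [intervalIntegral.sum_integral_adjacent_intervals
      (fun k _ => hc.intervalIntegrable _ _)]
    rw [pow_zero, intervalIntegral.integral_add_adjacent_intervals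
      (hc.intervalIntegrable _ _) (hc.intervalIntegrable _ _)]
  rw [h4]
  refine add_le_add ?_ ?_
  · have h5 : ∫ t in (0 : ℝ)..1, ‖kn y t‖ ≤ ∫ t in (0 : ℝ)..1, (1 : ℝ) :=
      intervalIntegral.integral_mono_on (by norm_num) (hc.intervalIntegrable _ _)
        (by simp) fun t _ => kn_le y t
    simpa using h5
  · have h5 : ∀ k ∈ Finset.range K, ∫ t in (2 : ℝ) ^ k..(2 : ℝ) ^ (k + 1), ‖kn y t‖ ≤
        Cb * ((1 + (k : ℝ)) * (4 / 5) ^ k) := by
      intro k hk
      rw [Finset.mem_range] at hk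
      have hk1 : (1 : ℝ) ≤ 2 ^ k := one_le_pow₀ (by norm_num)
      have hk2 : (2 : ℝ) * 2 ^ k ≤ M / 40 := by
        refine le_trans ?_ hK
        rw [← pow_succ']
        exact pow_le_pow_right₀ (by norm_num) hk
      have h6 := hb _ hk1 hk2
      have h7 : (2 : ℝ) ^ (k + 1) = 2 * 2 ^ k := pow_succ' _ _
      rw [h7]
      have h8 : ∫ t in (2 : ℝ) ^ k..2 * 2 ^ k, ‖kn y t‖ ≤ ∫ t in (2 : ℝ) ^ k..2 * 2 ^ k,
        (‖(∑ p, ec p y * Complex.exp (Complex.I * ((t * es p : ℝ) : ℂ))) / (M : ℂ) ^ d‖ +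
          ‖(∑ p, ec p y * Complex.exp (-(Complex.I * ((t * es p : ℝ) : ℂ)))) /
            (M : ℂ) ^ d‖) := by
        refine intervalIntegral.integral_mono_on (by linarith) (hc.intervalIntegrable _ _)
          (((kp_cont y).norm.add hc).intervalIntegrable _ _) fun t _ => ?_
        exact le_add_of_nonneg_left (norm_nonneg _)
      refine h8.trans (h6.trans ?_)
      have h9 : Real.log ((2 : ℝ) ^ k) ≤ k := by
        rw [Real.log_pow]
        have : Real.log 2 ≤ 1 := by
          have := Real.log_two_lt_d9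
          linarith
        have hk0 : (0 : ℝ) ≤ k := Nat.cast_nonneg k
        nlinarith
      have h10 : 0 ≤ Real.log ((2 : ℝ) ^ k) := Real.log_nonneg hk1
      have h11 := pow_third k
      calc Cb * ((2 : ℝ) ^ k) ^ (-(1 / 3 : ℝ)) * (1 + Real.log (2 ^ k)) ≤
          Cb * (4 / 5) ^ k * (1 + k) := by gcongr
        _ = _ := by ring
    refine (Finset.sum_le_sum h5).trans ?_
    rw [← Finset.mul_sum, mul_comm]
    have := geo K
    gcongr

theorem frb (bkt : QD.BktStmt) (sob : QD.SobStmt) (dsu : QD.DsuStmt) (ral : QD.RalStmt) :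
    FrbStmt := by
  intro d hd
  obtain ⟨Cb, hCb, hb⟩ := bkt d hd
  obtain ⟨Cs, hCs, hs⟩ := sob d hd
  obtain ⟨Cd, hCd, hdd⟩ := dsu d hd
  have hCC : 1 ≤ Cs * Cd := one_le_mul_of_one_le_of_one_le hCs hCd
  refine ⟨80 + 25 * Cb + (Cs * Cd) ^ 2, by nlinarith, fun M _ z hz hz1 hM x => ?_⟩
  obtain ⟨-, hsymm, -, -, -, -, -, -, -, -, hfree, -⟩ := ral d M (0 : Tor d M → ℝ) z hz
  set w : ℝ := z.im with hw
  set C : ℝ := 80 + 25 * Cb + (Cs * Cd) ^ 2 with hC
  have hw2 : 0 < w ^ 2 := by positivity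
  have hC80 : 80 ≤ C := by
    rw [hC]
    nlinarith
  have hMw : C ≤ M * w ^ 2 := by rwa [div_le_iff₀ hw2] at hM
  have hwsq : w ^ 2 ≤ 1 := pow_le_one₀ hz.le hz1
  have hM0 : (0 : ℝ) ≤ M := Nat.cast_nonneg M
  have hM1 : (80 : ℝ) ≤ M := by nlinarith
  refine ⟨fun y => ?_, ?_⟩
  · obtain ⟨K, hK1, hK2⟩ := exists_nat_pow_near (x := (M : ℝ) / 40) (y := 2) (by linarith)
      (by norm_num)
    have h1 := kn_int hCb (x - y) (fun T => hb M T (x - y)) hK1
    set T₀ : ℝ := 2 ^ K with hT₀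
    have hT1 : 0 ≤ T₀ := by positivity
    have h2 : Real.exp (-(w * T₀)) / w ≤ 1 := by
      apply tail_le hz
      have h5 : (M : ℝ) / 80 ≤ T₀ := by
        rw [pow_succ] at hK2
        linarith
      calc (1 : ℝ) ≤ w ^ 2 * (M / 80) := by linarith
        _ ≤ w ^ 2 * T₀ := by gcongr
    have h3 : rs (0 : Tor d M → ℝ) z x y =
        Complex.I * (∫ t in (0 : ℝ)..T₀, Complex.exp (Complex.I * z * t) * kn (x - y) t) +
        (∑ p, ec p (x - y) * (Complex.exp (-(Complex.I * ((es p : ℂ) - z) * T₀)) /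
          ((es p : ℂ) - z))) / (M : ℂ) ^ d := by
      rw [hfree x y]
      have h4 : (∫ t in (0 : ℝ)..T₀, Complex.exp (Complex.I * z * t) * kn (x - y) t) =
          (∑ p, ec p (x - y) * ∫ t in (0 : ℝ)..T₀, Complex.exp (Complex.I * z * t) *
            Complex.exp (-(Complex.I * ((t * es p : ℝ) : ℂ)))) / (M : ℂ) ^ d := by
        have h5 : ∀ p : Tor d M, (ec p (x - y) * ∫ t in (0 : ℝ)..T₀,
            Complex.exp (Complex.I * z * t) *
            Complex.exp (-(Complex.I * ((t * es p : ℝ) : ℂ)))) =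
            ∫ t in (0 : ℝ)..T₀, ec p (x - y) * (Complex.exp (Complex.I * z * t) *
            Complex.exp (-(Complex.I * ((t * es p : ℝ) : ℂ)))) :=
          fun p => (intervalIntegral.integral_const_mul _ _).symm
        rw [Finset.sum_congr rfl fun p _ => h5 p, ← intervalIntegral.integral_finsetSum,
          ← intervalIntegral.integral_div]
        · refine intervalIntegral.integral_congr fun t _ => ?_
          simp only [kn]
          rw [← mul_div_assoc, Finset.mul_sum]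
          congr 1
          exact Finset.sum_congr rfl fun p _ => by ring
        · intro p _
          exact Continuous.intervalIntegrable (by fun_prop) _ _
      rw [h4, ← mul_div_assoc, ← add_div, Finset.mul_sum, ← Finset.sum_add_distrib]
      congr 1
      refine Finset.sum_congr rfl fun p _ => ?_
      have h5 := one_div_eq hz (es p) T₀
      rw [div_eq_mul_one_div, h5]
      ring
    rw [h3]
    have h4 : ‖Complex.I * (∫ t in (0 : ℝ)..T₀, Complex.exp (Complex.I * z * t) *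
        kn (x - y) t)‖ ≤ 1 + 25 * Cb := by
      rw [norm_mul, Complex.norm_I, one_mul]
      refine le_trans ?_ h1
      apply intervalIntegral.norm_integral_le_of_norm_le hT1
      · refine Filter.Eventually.of_forall fun t ht => ?_
        rw [norm_mul]
        have h6 : ‖Complex.exp (Complex.I * z * t)‖ ≤ 1 := by
          rw [Complex.norm_exp]
          rw [Real.exp_le_one_iff]
          have h7 : (Complex.I * z * t).re = -(z.im * t) := by
            simp
          rw [h7]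
          have := ht.1
          have : 0 ≤ z.im * t := mul_nonneg hz.le this.le
          linarith
        calc ‖Complex.exp (Complex.I * z * t)‖ * ‖kn (x - y) t‖ ≤ 1 * ‖kn (x - y) t‖ := by
              gcongr
          _ = _ := one_mul _
      · exact (kn_cont _).norm.intervalIntegrable _ _
    have h5 : ‖(∑ p, ec p (x - y) * (Complex.exp (-(Complex.I * ((es p : ℂ) - z) * T₀)) /
          ((es p : ℂ) - z))) / (M : ℂ) ^ d‖ ≤ 1 := by
      apply mean_le
      intro p
      rw [norm_mul, Pool.Agent.LE.IR.H54.ec_norm, one_mul, norm_div]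
      refine le_trans ?_ h2
      have h6 : ‖Complex.exp (-(Complex.I * ((es p : ℂ) - z) * T₀))‖ =
          Real.exp (-(w * T₀)) := by
        rw [Complex.norm_exp]
        congr 1
        simp [hw]
      rw [h6]
      have h7 := es_sub_norm hz (es p)
      gcongr
    refine (norm_add_le _ _).trans ((add_le_add h4 h5).trans ?_)
    rw [hC]
    nlinarith
  · -- the Sobolev inequality
    have hCs2 : Cs ≤ C := by
      rw [hC]
      nlinarith
    have hCd2 : Cd ≤ C := by
      rw [hC]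
      nlinarith
    have h1 := hs M z.re w hz hz1 ((div_le_div_of_nonneg_right hCs2 hw2.le).trans hM)
    have hCdM : Cd / w ≤ M := by
      refine le_trans ?_ hM
      have : Cd / w ≤ C / w := div_le_div_of_nonneg_right hCd2 hz.le
      refine this.trans ?_
      apply div_le_div_of_nonneg_left (by linarith) hw2
      nlinarith
    obtain ⟨-, h2⟩ := hdd M z.re w hz hz1 hCdM
    -- the function
    set f : Tor d M → ℂ := fun y => rs (0 : Tor d M → ℝ) z x y with hf
    have hft : ∀ p, ft f p = (starRingEnd ℂ) (ec p x) / ((es p : ℂ) - z) := by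
      obtain ⟨g, hg⟩ := Pool.Agent.LE.IR.H54.surj
        (fun p : Tor d M => (starRingEnd ℂ) (ec p x) / ((es p : ℂ) - z))
      have hgf : g = f := by
        funext y
        rw [Pool.Agent.LE.IR.H54.inversion g y, hf]
        simp only
        rw [hsymm x y, hfree y x]
        congr 1
        refine Finset.sum_congr rfl fun p _ => ?_
        rw [hg p, Pool.Agent.LE.IR.H54.ec_sub]
        ring
      rw [← hgf]
      exact hg
    have hmt : ∀ p : Tor d M, ‖(es p : ℂ) - z‖ = Real.sqrt ((es p - z.re) ^ 2 + w ^ 2) := by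
      intro p
      rw [Complex.norm_def, Complex.normSq_apply]
      congr 1
      simp only [Complex.sub_re, Complex.ofReal_re, Complex.sub_im, Complex.ofReal_im]
      rw [hw]
      ring
    have hqn : qn z.re w f =
        pm (fun p : Tor d M => (Real.sqrt ((es p - z.re) ^ 2 + w ^ 2))⁻¹) := by
      unfold qn pm
      congr 1
      refine Finset.sum_congr rfl fun p _ => ?_
      beta_reduce
      rw [hft p, norm_div, RCLike.norm_conj, Pool.Agent.LE.IR.H54.ec_norm, hmt p]
      have h3 : mt (2 * d - z.re) w p = Real.sqrt ((es p - z.re) ^ 2 + w ^ 2) := by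
        unfold Pool.Agent.LE.IR.mt es
        congr 1
        ring
      rw [h3]
      have h4 : 0 < Real.sqrt ((es p - z.re) ^ 2 + w ^ 2) := Real.sqrt_pos.2 (by positivity)
      field_simp
    have h3 := h1 f
    rw [hqn] at h3
    have hlogM : 0 ≤ Real.log M := Real.log_nonneg (by linarith)
    have hlogw : Real.log (1 / w) ≤ Real.log M := by
      apply Real.log_le_log (by positivity)
      rw [div_le_iff₀ hz]
      nlinarith
    have hlogw0 : 0 ≤ Real.log (1 / w) := by
      apply Real.log_nonneg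
      rw [le_div_iff₀ hz]
      linarith
    have h4 : n4 f ≤ Cs * Cd * w ^ (-(1 / 3 : ℝ)) * (1 + Real.log M) ^ 3 := by
      calc n4 f ≤ Cs * w ^ (-(1 / 3 : ℝ)) * (1 + Real.log M) ^ 2 *
            (Cd * (1 + Real.log (1 / w))) := h3.trans (by gcongr)
        _ ≤ Cs * w ^ (-(1 / 3 : ℝ)) * (1 + Real.log M) ^ 2 *
            (Cd * (1 + Real.log M)) := by gcongr
        _ = _ := by ring
    have h5 : (0 : ℝ) ≤ ∑ y, ‖f y‖ ^ 4 := Finset.sum_nonneg fun y _ => by positivity
    have h6 : ∑ y, ‖f y‖ ^ 4 ≤ (Cs * Cd * w ^ (-(1 / 3 : ℝ)) * (1 + Real.log M) ^ 3) ^ 2 := by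
      have h7 : (n4 f) ^ 2 = ∑ y, ‖f y‖ ^ 4 := Real.sq_sqrt h5
      rw [← h7]
      have h8 : 0 ≤ n4 f := Real.sqrt_nonneg _
      gcongr
    refine h6.trans ?_
    have h7 : (w ^ (-(1 / 3 : ℝ))) ^ 2 = w ^ (-(2 / 3 : ℝ)) := by
      rw [← Real.rpow_natCast, ← Real.rpow_mul hz.le]
      norm_num
    calc (Cs * Cd * w ^ (-(1 / 3 : ℝ)) * (1 + Real.log M) ^ 3) ^ 2 =
        (Cs * Cd) ^ 2 * (w ^ (-(1 / 3 : ℝ))) ^ 2 * (1 + Real.log M) ^ 6 := by ring
      _ = (Cs * Cd) ^ 2 * w ^ (-(2 / 3 : ℝ)) * (1 + Real.log M) ^ 6 := by rw [h7]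
      _ ≤ C * w ^ (-(2 / 3 : ℝ)) * (1 + Real.log M) ^ 6 := by
        have h8 : (Cs * Cd) ^ 2 ≤ C := by
          rw [hC]
          linarith
        gcongr

end Pool.Agent.LE.QF.H88
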